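import Pool.Agent.Helper68.Limit

set_option autoImplicit false

open Filter Topology
open scoped ENNReal ContDiff

namespace Pool.Agent.Results.MP_fb0356_an.NoRate

/-- `f : ℝ → ℝ` is `C^t` for a real number `t ≥ 1`: writing `t = k + α` with `k = ⌊t⌋` and
`α = fract t`, the function `f` is `C^k` and, when `α > 0`, its `k`-th derivative is
`α`-Hölder. -/
def IsCt (t : ℝ) (f : ℝ → ℝ) : Prop :=
  ContDiff ℝ (⌊t⌋₊ : ℕ) f ∧
    (0 < Int.fract t → ∃ C : ℝ, ∀ x y : ℝ,
      |iteratedDeriv ⌊t⌋₊ f x - iteratedDeriv ⌊t⌋₊ f y| ≤ C * |x - y| ^ Int.fract t)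

/-- `F : ℝ → ℝ` is a lift of an (orientation preserving) `C^t` circle diffeomorphism:
it is increasing, commutes with the translation by `1`, and it is a bijection which is `C^t`
together with its inverse. -/
def IsCircleDiffeoLift (t : ℝ) (F : ℝ → ℝ) : Prop :=
  StrictMono F ∧ (∀ x, F (x + 1) = F x + 1) ∧ IsCt t F ∧
    ∃ G : ℝ → ℝ, (∀ x, G (F x) = x) ∧ (∀ x, F (G x) = x) ∧ IsCt t G

/-- `ρ` is the rotation number of the lift `F`: `(F^n(x) - x) / n → ρ` for every `x`. -/
def HasRotationNumber (F : ℝ → ℝ) (ρ : ℝ) : Prop :=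
  ∀ x, Tendsto (fun n : ℕ => (F^[n] x - x) / n) atTop (𝓝 ρ)

/-- The `C^r` norm (possibly infinite) of `φ : ℝ → ℝ`, `r = k + α`: the sum of the sup norms of
`φ, φ', …, φ^(k)` plus, when `α > 0`, the `α`-Hölder seminorm of `φ^(k)`. -/
noncomputable def crNorm (r : ℝ) (φ : ℝ → ℝ) : ℝ≥0∞ :=
  (∑ i ∈ Finset.range (⌊r⌋₊ + 1), ⨆ x : ℝ, ENNReal.ofReal |iteratedDeriv i φ x|) +
    if 0 < Int.fract r then
      ⨆ (x : ℝ) (y : ℝ) (_ : x ≠ y), ENNReal.ofReal
        (|iteratedDeriv ⌊r⌋₊ φ x - iteratedDeriv ⌊r⌋₊ φ y| / |x - y| ^ Int.fract r)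
    else 0

/-- The circle maps with lifts `g n` converge to the identity in the `C^r` topology: the lifts can
be corrected by integers `m n` so that `‖g n + m n - id‖_{C^r} → 0`. -/
def ConvergesToIdentity (r : ℝ) (g : ℕ → ℝ → ℝ) : Prop :=
  ∃ m : ℕ → ℤ, Tendsto (fun n => crNorm r (fun x => g n x + m n - x)) atTop (𝓝 0)

/-- The property of Q1: there is `s ≥ r` such that, for every `C^s` circle diffeomorphism `f` with
irrational rotation number `ρ`, the iterates `f^{q_n}` converge to the identity in the `C^r`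
topology, where `q_n` is the denominator of the `n`-th convergent of `ρ`. -/
def HasProperty (r : ℝ) : Prop :=
  ∃ s : ℝ, r ≤ s ∧ ∀ (F : ℝ → ℝ) (ρ : ℝ), IsCircleDiffeoLift s F → HasRotationNumber F ρ →
    Irrational ρ → ConvergesToIdentity r (fun n => F^[(ρ.convergent n).den])

open Pool.Agent.Helper68

lemma iteratedDeriv_add_one {e : Equiv.Perm ℝ} (he : e ∈ Dif) {k : ℕ} (hk : 1 ≤ k) (x : ℝ) :
    iteratedDeriv k e (x + 1) = iteratedDeriv k e x := by
  induction k, hk using Nat.le_induction generalizing x with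
  | base =>
    rw [iteratedDeriv_one]
    exact deriv_periodic (c := 1) (Dif.add_one he) x
  | succ k hk ih =>
    rw [iteratedDeriv_succ]
    exact deriv_periodic (c := 0) (by simpa using ih) x

lemma isCt_of_mem {e : Equiv.Perm ℝ} (he : e ∈ Dif) {t : ℝ} (ht : 1 ≤ t) : IsCt t e := by
  have hk : 1 ≤ ⌊t⌋₊ := Nat.one_le_floor_iff t |>.mpr ht
  refine ⟨(Dif.contDiff he).of_le (by exact_mod_cast le_top), fun hα => ?_⟩
  set k := ⌊t⌋₊
  set α := Int.fract t
  have hα1 : α < 1 := Int.fract_lt_one t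
  have hg1 : ContDiff ℝ 1 (iteratedDeriv k e) := by
    rw [iteratedDeriv_eq_iterate]
    exact ContDiff.iterate_deriv' 1 k ((Dif.contDiff he).of_le (by exact_mod_cast le_top))
  obtain ⟨M, hM⟩ := periodic_bound hg1.continuous (iteratedDeriv_add_one he hk)
  obtain ⟨L, hL⟩ := periodic_bound (hg1.continuous_deriv le_rfl)
    (deriv_periodic (c := 0) (by simpa using iteratedDeriv_add_one he hk))
  have hM0 : 0 ≤ M := (abs_nonneg _).trans (hM 0)
  have hL0 : 0 ≤ L := (abs_nonneg _).trans (hL 0)
  refine ⟨L + 2 * M, fun x y => ?_⟩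
  have h1 : |iteratedDeriv k e x - iteratedDeriv k e y| ≤ L * |x - y| := by
    have := Convex.norm_image_sub_le_of_norm_deriv_le (𝕜 := ℝ) (f := iteratedDeriv k e) (C := L)
      (s := Set.univ) (x := y) (y := x)
      (fun z _ => (hg1.differentiable (by simp)).differentiableAt) (fun z _ => hL z) convex_univ
      trivial trivial
    exact this
  have h2 : |iteratedDeriv k e x - iteratedDeriv k e y| ≤ 2 * M := by
    have a1 := abs_sub (iteratedDeriv k e x) (iteratedDeriv k e y)
    have a2 := hM x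
    have a3 := hM y
    linarith
  have hp0 : 0 ≤ |x - y| ^ α := Real.rpow_nonneg (abs_nonneg _) _
  rcases le_total |x - y| 1 with h | h
  · rcases (abs_nonneg (x - y)).eq_or_lt with h0 | h0
    · rw [← h0] at h1
      nlinarith
    · have h3 : |x - y| ≤ |x - y| ^ α := by
        have := Real.rpow_le_rpow_of_exponent_ge h0 h hα1.le
        rwa [Real.rpow_one] at this
      have h4 : L * |x - y| ≤ L * |x - y| ^ α := by gcongr
      nlinarith
  · have h3 : 1 ≤ |x - y| ^ α := Real.one_le_rpow h hα.le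
    have h4 : 2 * M ≤ 2 * M * |x - y| ^ α := by nlinarith
    nlinarith

lemma isLift_of_mem {e : Equiv.Perm ℝ} (he : e ∈ Dif) {t : ℝ} (ht : 1 ≤ t) :
    IsCircleDiffeoLift t e :=
  ⟨Dif.strictMono he, Dif.add_one he, isCt_of_mem he ht, (e⁻¹ : Equiv.Perm ℝ), p_inv_apply e,
    p_apply_inv e, isCt_of_mem (Dif.inv_mem he) ht⟩

lemma hasRotationNumber_rot {e : Equiv.Perm ℝ} (he : e ∈ Dif) : HasRotationNumber e (rot e he) := by
  intro x
  have h := (toC e he).tendsto_translationNumber x
  refine h.congr fun n => ?_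
  rw [toC_pow, ← Equiv.Perm.iterate_eq_pow]

lemma den_eq {P : ℤ} {N : ℕ} (hN : 0 < N) (h : IsCoprime P (N : ℤ)) : ((P : ℚ) / N).den = N := by
  have h1 := Rat.den_div_eq_of_coprime (a := P) (b := (N : ℤ)) (by exact_mod_cast hN)
    (by
      rw [Int.isCoprime_iff_gcd_eq_one] at h
      exact h)
  exact_mod_cast h1

theorem main : ∃ (F : ℝ → ℝ) (ρ : ℝ), (∀ t : ℝ, 1 ≤ t → IsCircleDiffeoLift t F) ∧
    HasRotationNumber F ρ ∧ Irrational ρ ∧
    ∀ r : ℝ, 1 < r → ¬ ConvergesToIdentity r (fun n => F^[(ρ.convergent n).den]) := by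
  obtain ⟨F, hF, hbad⟩ := exists_bad
  refine ⟨F, rot F hF, fun t ht => isLift_of_mem hF ht, hasRotationNumber_rot hF, ?_, ?_⟩
  · -- irrationality
    rintro ⟨s, hs⟩
    obtain ⟨N, hN, P, hP, hρ, -⟩ := hbad s.den
    have hN0 : 0 < N := by omega
    rw [← hs] at hρ
    have hNR : (0 : ℝ) < N := by exact_mod_cast hN0
    have hdR : (0 : ℝ) < s.den := by exact_mod_cast s.den_pos
    by_cases h0 : s.num * N - P * s.den = 0
    · have h1 : s = (P : ℚ) / N := by
        have h2 : (s.num : ℚ) / s.den = s := s.num_div_den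
        have h3 : ((s.num * N - P * s.den : ℤ) : ℚ) = 0 := by rw [h0]; rfl
        push_cast at h3
        have h4 : (N : ℚ) ≠ 0 := by exact_mod_cast hN0.ne'
        have h5 : (s.den : ℚ) ≠ 0 := by exact_mod_cast s.den_pos.ne'
        rw [← h2, div_eq_div_iff h5 h4]
        linarith
      have h6 := den_eq hN0 hP
      rw [← h1] at h6
      omega
    · have h1 : (1 : ℝ) ≤ |((s.num * N - P * s.den : ℤ) : ℝ)| := by
        have : 1 ≤ |s.num * N - P * s.den| := Int.one_le_abs h0
        exact_mod_cast this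
      have h2 : ((s.num * N - P * s.den : ℤ) : ℝ) = ((s : ℝ) - P / N) * (s.den * N) := by
        have h3 : (s : ℝ) = s.num / s.den := by exact_mod_cast (Rat.num_div_den s).symm
        rw [h3]
        push_cast
        field_simp
      rw [h2, abs_mul, abs_of_pos (show (0 : ℝ) < s.den * N by positivity)] at h1
      have h4 : (s.den : ℝ) < N := by exact_mod_cast hN
      have h5 : |(s : ℝ) - P / N| * (s.den * N) < 1 / (2 * N ^ 2) * (s.den * N) := by
        gcongr
      have h6 : 1 / (2 * (N : ℝ) ^ 2) * (s.den * N) ≤ 1 / (2 * (N : ℝ) ^ 2) * (N * N) := by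
        gcongr
      have h7 : 1 / (2 * (N : ℝ) ^ 2) * (N * N) = 1 / 2 := by
        field_simp
      linarith
  · -- no convergence
    rintro r hr ⟨m, hm⟩
    have hev := hm.eventually (gt_mem_nhds (show (0 : ℝ≥0∞) < 1 from one_pos))
    obtain ⟨l₀, hl₀⟩ := eventually_atTop.mp hev
    obtain ⟨n, hn1, hn2, hn3⟩ : ∃ n : ℕ, 1 ≤ n ∧
        (∀ l < l₀, ((rot F hF).convergent l).den ≤ n) ∧
        (0 < Int.fract r → 1 / ((n : ℝ) + 1) ≤ Int.fract r) := by
      obtain ⟨n₁, hn₁⟩ : ∃ n₁ : ℕ, 0 < Int.fract r → 1 / ((n₁ : ℝ) + 1) ≤ Int.fract r := by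
        by_cases h : 0 < Int.fract r
        · obtain ⟨n₁, h1⟩ := exists_nat_one_div_lt h
          exact ⟨n₁, fun _ => h1.le⟩
        · exact ⟨0, fun h' => absurd h' h⟩
      refine ⟨1 + n₁ + ∑ l ∈ Finset.range l₀, ((rot F hF).convergent l).den, by omega, ?_, ?_⟩
      · intro l hl
        have := Finset.single_le_sum (f := fun l => ((rot F hF).convergent l).den)
          (fun _ _ => Nat.zero_le _) (Finset.mem_range.mpr hl)
        omega
      · intro h
        refine le_trans ?_ (hn₁ h)
        apply one_div_le_one_div_of_le (by positivity)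
        push_cast
        have : (0 : ℝ) ≤ ∑ l ∈ Finset.range l₀, (((rot F hF).convergent l).den : ℝ) := by positivity
        linarith
    obtain ⟨N, hN, P, hP, hρ, x, y, hxy, hgap⟩ := hbad n
    have hN0 : 0 < N := by omega
    have hden := den_eq hN0 hP
    obtain ⟨l, hl⟩ := Real.exists_rat_eq_convergent (ξ := rot F hF) (q := (P : ℚ) / N) (by
      rw [hden]
      push_cast
      exact hρ)
    rw [hl] at hden
    have hll : l₀ ≤ l := by
      by_contra hlt
      have := hn2 l (by omega)
      omega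
    have hnorm := hl₀ l hll
    beta_reduce at hnorm
    rw [hden] at hnorm
    set φ : ℝ → ℝ := fun x => F^[N] x + m l - x with hφ
    have hit : F^[N] = ((F ^ N : Equiv.Perm ℝ) : ℝ → ℝ) := by rw [Equiv.Perm.iterate_eq_pow]
    have hFN : F ^ N ∈ Dif := Dif.pow_mem hF N
    have hφd : ∀ z, HasDerivAt φ (deriv (F ^ N : Equiv.Perm ℝ) z - 1) z := by
      intro z
      have h1 := ((Dif.hasDerivAt hFN z).add_const (m l : ℝ)).sub (hasDerivAt_id z)
      rw [hφ, hit]
      exact h1
    have hφ' : deriv φ = fun z => deriv (F ^ N : Equiv.Perm ℝ) z - 1 := funext fun z => (hφd z).deriv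
    have hxy0 : x ≠ y := by
      intro h
      rw [h, sub_self, sub_self, abs_zero, Real.zero_rpow (by positivity), mul_zero] at hgap
      exact lt_irrefl _ hgap
    have hxypos : 0 < |x - y| := abs_pos.mpr (sub_ne_zero.mpr hxy0)
    have hnR : (1 : ℝ) ≤ n := by exact_mod_cast hn1
    have hp0 : 0 ≤ |x - y| ^ (1 / ((n : ℝ) + 1)) := Real.rpow_nonneg (abs_nonneg _) _
    have hkey : |x - y| ^ (1 / ((n : ℝ) + 1)) < |deriv φ x - deriv φ y| := by
      rw [hφ']
      simp only [sub_sub_sub_cancel_right]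
      nlinarith
    have hk : 1 ≤ ⌊r⌋₊ := (Nat.one_le_floor_iff r).mpr hr.le
    rcases hk.eq_or_lt with h1 | h2
    · -- the Hölder case
      have hfr : 0 < Int.fract r := by
        have hfl : ⌊r⌋ = 1 := by
          have : ((⌊r⌋₊ : ℕ) : ℤ) = ⌊r⌋ := Int.natCast_floor_eq_floor (by linarith)
          rw [← this, ← h1]
          rfl
        have : Int.fract r = r - 1 := by
          rw [← Int.self_sub_floor, hfl]
          push_cast
          ring
        rw [this]
        linarith
      have hle : ENNReal.ofReal (|iteratedDeriv ⌊r⌋₊ φ x - iteratedDeriv ⌊r⌋₊ φ y| /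
          |x - y| ^ Int.fract r) ≤ crNorm r φ := by
        unfold crNorm
        rw [if_pos hfr]
        refine le_trans ?_ le_add_self
        refine le_iSup_of_le x (le_iSup_of_le y (le_iSup_of_le hxy0 le_rfl))
      have hlt := lt_of_le_of_lt hle hnorm
      rw [← h1, iteratedDeriv_one, ENNReal.ofReal_lt_one,
        div_lt_one (Real.rpow_pos_of_pos hxypos _)] at hlt
      have := Real.rpow_le_rpow_of_exponent_ge hxypos hxy (hn3 hfr)
      linarith
    · -- the second derivative case
      have hφ2 : ∀ z, |iteratedDeriv 2 φ z| ≤ 1 := by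
        intro z
        have hle : ENNReal.ofReal |iteratedDeriv 2 φ z| ≤ crNorm r φ := by
          unfold crNorm
          refine le_trans ?_ le_self_add
          refine le_trans ?_ (Finset.single_le_sum
            (f := fun i => ⨆ x : ℝ, ENNReal.ofReal |iteratedDeriv i φ x|)
            (fun _ _ => zero_le) (Finset.mem_range.mpr (show 2 < ⌊r⌋₊ + 1 by omega)))
          exact le_iSup (fun x => ENNReal.ofReal |iteratedDeriv 2 φ x|) z
        have hlt := lt_of_le_of_lt hle hnorm
        rw [ENNReal.ofReal_lt_one] at hlt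
        exact hlt.le
      have hdd : Differentiable ℝ (deriv φ) := by
        rw [hφ']
        have h3 := (Dif.contDiff hFN).iterate_deriv 1
        rw [Function.iterate_one] at h3
        exact (h3.differentiable (by simp)).sub_const 1
      have h3 := Convex.norm_image_sub_le_of_norm_deriv_le (𝕜 := ℝ) (f := deriv φ) (C := 1)
        (s := Set.univ) (x := y) (y := x) (fun z _ => hdd z)
        (fun z _ => by
          have := hφ2 z
          rw [iteratedDeriv_succ, iteratedDeriv_one] at this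
          exact this) convex_univ trivial trivial
      rw [Real.norm_eq_abs, Real.norm_eq_abs, one_mul] at h3
      have h4 : |x - y| ≤ |x - y| ^ (1 / ((n : ℝ) + 1)) := by
        have h5 : 1 / ((n : ℝ) + 1) ≤ 1 := by
          rw [div_le_one (by positivity)]
          linarith
        have := Real.rpow_le_rpow_of_exponent_ge hxypos hxy h5
        rwa [Real.rpow_one] at this
      linarith

/-- **Answer to Q1.** No real number `r > 1` has the property. Moreover, one `C^∞` circle
diffeomorphism `f` with irrational rotation number works for all `r > 1` at once: `f^{q_n}` does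
not converge to the identity in the `C^r` topology. -/
theorem result :
    {r : ℝ | 1 < r ∧ HasProperty r} = ∅ ∧
    ∃ (F : ℝ → ℝ) (ρ : ℝ), (∀ t : ℝ, 1 ≤ t → IsCircleDiffeoLift t F) ∧
      HasRotationNumber F ρ ∧ Irrational ρ ∧
      ∀ r : ℝ, 1 < r → ¬ ConvergesToIdentity r (fun n => F^[(ρ.convergent n).den]) := by
  refine ⟨?_, main⟩
  ext r
  simp only [Set.mem_ofPred_eq, Set.mem_empty_iff_false, iff_false, not_and]
  rintro hr ⟨s, hs, h⟩
  obtain ⟨F, ρ, h1, h2, h3, h4⟩ := main
  exact h4 r hr (h F ρ (h1 s (by linarith)) h2 h3)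

end Pool.Agent.Results.MP_fb0356_an.NoRate
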